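import Mathlib
import Pool.Agent.W262.SH.Fam
import Pool.Agent.W262.SH.Def
import Pool.Agent.W262.SH.Kum
import Pool.Agent.W131.SH.Locl2
import Pool.Agent.W839.SH.Desc5
import Pool.Agent.W177.SH.Div
import Pool.Agent.W333.SH.Dup
import Pool.Agent.W782.SH.LocX
import Pool.Agent.W334.SH.Sh1
import Pool.Agent.W338.SH.Sh2

/-!
# The average of `2 ^ rank * #Ш[2]` is bounded in families with full 2-torsion

Let `F k (t) = a k * D(t) * ∏_{i < n} (α k i * t + β k i)` for `k = 0, 1, 2`, where `D` is a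
product of `m` linear forms, all the `3 n + m` linear forms are pairwise non-proportional and
`F 0 - F 1 = F 2`. Then the average over `|t| ≤ X` of `2 ^ rank E_t(ℚ) * #Ш(E_t/ℚ)[2]` for the
elliptic curves `E_t : y² = x (x - F 0 (t)) (x - F 1 (t))` over `ℚ` is bounded.
-/

namespace Pool.Agent.Results.MP_e23604_nt.BoundedSha

open Finset

open Pool.Agent.W262.SH (E Sha2)

/-- `F k (t) = a k * (∏ i, (γ i * t + δ i)) * ∏ i, (α k i * t + β k i)` -/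
def F {n m : ℕ} (a : Fin 3 → ℤ) (γ δ : Fin m → ℤ) (α β : Fin 3 → Fin n → ℤ) (k : Fin 3)
    (t : ℤ) : ℤ :=
  a k * (∏ i, (γ i * t + δ i)) * ∏ i, (α k i * t + β k i)

/-- `Ш(E_t/ℚ)[2]` is finite and the average of `2 ^ rank E_t(ℚ) * #Ш(E_t/ℚ)[2]` is bounded. -/
theorem result (n m : ℕ) (a : Fin 3 → ℤ) (γ δ : Fin m → ℤ) (α β : Fin 3 → Fin n → ℤ)
    (ha : ∀ k, a k ≠ 0) (hα : ∀ k i, α k i ≠ 0) (hγ : ∀ i, γ i ≠ 0)
    (h1 : ∀ k i l j, (k, i) ≠ (l, j) → α k i * β l j ≠ α l j * β k i)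
    (h2 : ∀ i j, i ≠ j → γ i * δ j ≠ γ j * δ i)
    (h3 : ∀ k i j, α k i * δ j ≠ γ j * β k i)
    (hF : ∀ t : ℤ, F a γ δ α β 0 t - F a γ δ α β 1 t = F a γ δ α β 2 t) :
    (∀ t : ℤ, (∀ k, F a γ δ α β k t ≠ 0) →
      Finite (Sha2 (E (F a γ δ α β 0 t) (F a γ δ α β 1 t)))) ∧
    ∃ C : ℝ, ∀ X : ℕ, 1 ≤ X →
      ∑ t ∈ (Icc (-(X : ℤ)) X).filter (fun t : ℤ => ∀ k, F a γ δ α β k t ≠ 0),
        (2 : ℝ) ^ Module.finrank ℤ (E (F a γ δ α β 0 t) (F a γ δ α β 1 t)).toAffine.Point *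
          Nat.card (Sha2 (E (F a γ δ α β 0 t) (F a γ δ α β 1 t))) ≤ C * X := by
  have hS1 : Pool.Agent.W262.SH.SH1 := Pool.Agent.W334.SH.sh1 Pool.Agent.W262.SH.kum
    (Pool.Agent.W782.SH.locx Pool.Agent.W333.SH.dup)
  have hS2 : Pool.Agent.W262.SH.SH2 := Pool.Agent.W338.SH.sh2 Pool.Agent.W177.SH.div
  have hD : Pool.Agent.W262.SH.DESC5 := Pool.Agent.W839.SH.desc5 Pool.Agent.W131.SH.good2
  have hL : Pool.Agent.W262.SH.LOCL2 := Pool.Agent.W131.SH.locl2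
  classical
  simp only [Pool.Agent.W262.SH.sha2_eq]
  refine ⟨fun t ht => ?_, ?_⟩
  · refine (hS2 _ _ (ht 0) (ht 1) ?_ (hS1 _ _ (ht 0) (ht 1) ?_
      (Pool.Agent.W262.SH.selS_finite hD (ht 0) (ht 1) ?_)).1).1 <;>
    · intro h
      apply ht 2
      rw [← hF, h, sub_self]
  · obtain ⟨C, -, hC⟩ := Pool.Agent.W262.SH.fam hD hL hS1 hS2 a γ δ α β ha hα hγ h1 h2 h3 hF
    exact ⟨C, fun X hX => hC X hX⟩

end Pool.Agent.Results.MP_e23604_nt.BoundedSha
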