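import Mathlib
import Pool.Agent.W307.LS.Fin
import Pool.Agent.W262.SH.Def

/-!
# `Ш[2]` is large and the 2-corank of `Ш` is bounded for the curves with a cyclic 4-isogeny

The elliptic curves over `ℚ` with a rational cyclic subgroup of order 4 are the curves
`F4 a b : y² = x (x² + 2 (a + b) x + (a - b)²)`. For 100 percent of them `Ш` contains `(ℤ/2)ⁿ` with
`n = (3/2 - ε) log log max(|a|, |b|)`, but the average of `4 ^ (rank + r)` is bounded if `Ш`
contains `(ℤ/4)ʳ`, in particular for the 2-corank `r` of `Ш`.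
-/

namespace Pool.Agent.Results.MP_e23604_nt.CyclicFourIsogeny

open Finset Filter

open Pool.Agent.W262.SH (QB GQ Pt ShaQ gact)

open scoped Classical

/-- the curve `y² = x (x² + 2 (a + b) x + (a - b)²)` over `ℚ` -/
def F4 (a b : ℤ) : WeierstrassCurve ℚ := ⟨0, 2 * ((a : ℚ) + b), 0, ((a : ℚ) - b) ^ 2, 0⟩

/-- the pairs `(a, b)` of different nonzero integers of absolute value at most `T` with squarefree
greatest common divisor -/
noncomputable def Fam (T : ℕ) : Finset (ℤ × ℤ) :=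
  (Icc (-(T : ℤ)) T ×ˢ Icc (-(T : ℤ)) T).filter (fun t =>
    t.1 ≠ 0 ∧ t.2 ≠ 0 ∧ t.1 ≠ t.2 ∧ Squarefree (Int.gcd t.1 t.2))

/-- `(ℤ/m)ⁿ` embeds in the Tate-Shafarevich group of `W` -/
def ShaContains (W : WeierstrassCurve ℚ) (m n : ℕ) : Prop :=
  ∃ j : (Fin n → ZMod m) →+ ShaQ W, Function.Injective j

/-- `W` has a rational cyclic subgroup of order 4, generated by a point `Q` of order 4 over the
algebraic closure with `σ Q = ± Q` for all `σ` -/
def HasCyclicFour (W : WeierstrassCurve ℚ) : Prop :=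
  ∃ Q : Pt W QB, addOrderOf Q = 4 ∧ ∀ σ : GQ, gact W σ Q = Q ∨ gact W σ Q = -Q

lemma contains_iff (W : WeierstrassCurve ℚ) (m n : ℕ) : ShaContains W m n ↔
    ∃ j : (Fin n → ZMod m) →+ Pool.Agent.W262.SH.Sha W, Function.Injective j := by
  have h : Pool.Agent.W262.SH.ZS W = Pool.Agent.W262.SH.shaCoc W := by
    ext f
    exact Pool.Agent.W262.SH.isS_iff W f
  have h2 : ∀ S : AddSubgroup (GQ → Pt W QB), S = Pool.Agent.W262.SH.shaCoc W →
      ((∃ j : (Fin n → ZMod m) →+ Pool.Agent.W262.SH.Qt S (Pool.Agent.W262.SH.B1 (gact W)),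
        Function.Injective j) ↔
      ∃ j : (Fin n → ZMod m) →+ Pool.Agent.W262.SH.Sha W, Function.Injective j) := by
    rintro S rfl
    rfl
  exact h2 _ h

/-- **Theorem.** (1) Every elliptic curve over `ℚ` with a rational cyclic subgroup of order 4 is
isomorphic to some `F4 a b`, `gcd(a, b)` squarefree. (2) For every `ε > 0`, for 100 percent of the
`(a, b)` in the box `|a|, |b| ≤ T`, `T → ∞`, the Tate-Shafarevich group of `F4 a b` contains
`(ℤ/2)ⁿ` for all `n ≤ (3/2 - ε) log log T`. (3) The average of `4 ^ (rank + r)` over the box is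
bounded for all `r` such that the Tate-Shafarevich groups contain `(ℤ/4)ʳ`. -/
theorem result :
    (∀ W : WeierstrassCurve ℚ, W.Δ ≠ 0 → HasCyclicFour W →
      ∃ (a b : ℤ) (C : WeierstrassCurve.VariableChange ℚ), a ≠ 0 ∧ b ≠ 0 ∧ a ≠ b ∧
        Squarefree (Int.gcd a b) ∧ C • W = F4 a b) ∧
    (∀ ε : ℝ, 0 < ε → Tendsto (fun T : ℕ => (((Fam T).filter (fun t =>
      ∀ n : ℕ, (n : ℝ) ≤ (3 / 2 - ε) * Real.log (Real.log T) →
        ShaContains (F4 t.1 t.2) 2 n)).card : ℝ) / (Fam T).card) atTop (nhds 1)) ∧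
    ∃ C : ℝ, ∀ (T : ℕ) (r : ℤ × ℤ → ℕ), (∀ t ∈ Fam T, ShaContains (F4 t.1 t.2) 4 (r t)) →
      ∑ t ∈ Fam T, (4 : ℝ) ^ (Module.finrank ℤ (F4 t.1 t.2).toAffine.Point + r t) ≤
        C * (Fam T).card := by
  refine ⟨?_, ?_, ?_⟩
  · rintro W hW ⟨Q, hQ, hσ⟩
    refine Pool.Agent.W307.LS.par W hW ⟨Q, ?_, ?_, hσ⟩
    · intro h
      have : addOrderOf Q ∣ 2 := by
        rw [addOrderOf_dvd_iff_nsmul_eq_zero, two_nsmul]
        exact h
      rw [hQ] at this
      omega
    · have h4 := addOrderOf_nsmul_eq_zero Q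
      rw [hQ] at h4
      calc Q + Q + (Q + Q) = 4 • Q := by
            simp only [succ_nsmul, zero_nsmul, zero_add]
            abel
        _ = 0 := h4
  · simp only [contains_iff]
    exact Pool.Agent.W307.LS.big
  · simp only [contains_iff]
    exact Pool.Agent.W307.LS.small

end Pool.Agent.Results.MP_e23604_nt.CyclicFourIsogeny
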