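import Mathlib
import Pool.Agent.W307.FK.Sha
import Pool.Agent.W262.SH.Def

/-!
# The second moment of `2 ^ rank * #Ш[2]` over the curves with full rational 2-torsion is bounded

All elliptic curves `E` over `ℚ` with full rational 2-torsion, ordered by the discriminant: the
average of `(2 ^ rank E(ℚ) * #Ш(E/ℚ)[2]) ^ 2` is bounded, and the number of the curves tends to
infinity.
-/

namespace Pool.Agent.Results.MP_e23604_nt.FullTwoTorsionSha

open Finset Filter

open Pool.Agent.W262.SH (E Sha2)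

/-- The pairs `0 < a < b` of integers with squarefree gcd such that the discriminant
`16 (a b (b - a)) ^ 2` of the equation `y² = x (x - a) (x - b)` is at most `Z`. (The bounds
`a, b ≤ Z` follow. Every elliptic curve over `ℚ` with full rational 2-torsion is isomorphic to
`y² = x (x - a) (x - b)` for exactly one pair `0 < a < b` with squarefree gcd.) -/
def Fam (Z : ℕ) : Finset (ℕ × ℕ) :=
  (Icc 1 Z ×ˢ Icc 1 Z).filter (fun t => t.1 < t.2 ∧ Squarefree (t.1.gcd t.2) ∧
    16 * (t.1 * t.2 * (t.2 - t.1)) ^ 2 ≤ Z)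

theorem card_tendsto : Tendsto (fun Z : ℕ => (Fam Z).card) atTop atTop := by
  refine tendsto_atTop.2 fun b => ?_
  rw [eventually_atTop]
  refine ⟨64 * (8 * b + 8) ^ 6, fun Z hZ => ?_⟩
  have h1 : 64 ≤ 64 * (8 * b + 8) ^ 6 := Nat.le_mul_of_pos_right _ (by positivity)
  have h2 := Pool.Agent.W307.FK.G.fam_card Z (8 * b + 8) (by omega) (by omega)
    (le_trans (Nat.mul_le_mul_right _ (by norm_num)) hZ)
  have h3 : (b : ℝ) ≤ (Fam Z).card := by
    refine le_trans ?_ h2
    push_cast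
    have : (0 : ℝ) ≤ b := Nat.cast_nonneg b
    nlinarith
  exact_mod_cast h3

/-- **Theorem.** `Ш(E/ℚ)[2]` is finite and the average of `(2 ^ rank E(ℚ) * #Ш(E/ℚ)[2]) ^ 2` over
the elliptic curves over `ℚ` with full rational 2-torsion is bounded. -/
theorem result : (∀ a b : ℕ, 0 < a → a < b → Finite (Sha2 (E a b))) ∧
    ∃ C : ℝ, ∀ Z : ℕ, ∑ t ∈ Fam Z,
      ((2 : ℝ) ^ Module.finrank ℤ (E t.1 t.2).toAffine.Point * Nat.card (Sha2 (E t.1 t.2))) ^ 2 ≤
      C * (Fam Z).card := by
  classical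
  simp only [Pool.Agent.W262.SH.sha2_eq]
  refine ⟨fun a b ha hab => ?_, ?_⟩
  · have h1 : (a : ℤ) ≠ 0 := by
      have : a ≠ 0 := by omega
      exact_mod_cast this
    have h2 : (b : ℤ) ≠ 0 := by
      have : b ≠ 0 := by omega
      exact_mod_cast this
    have h3 : (a : ℤ) ≠ b := by exact_mod_cast hab.ne
    exact Pool.Agent.W262.SH.fin_sha Pool.Agent.W307.FK.G.desc5 Pool.Agent.W307.FK.G.sh1
      Pool.Agent.W307.FK.G.sh2 h1 h2 h3
  · obtain ⟨C, -, hC⟩ := Pool.Agent.W307.FK.G.wt_fam Pool.Agent.W307.FK.expf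
    refine ⟨C, fun Z => ?_⟩
    have h := hC 1 one_ne_zero Z
    simp only [one_mul, Int.natAbs_one, Nat.primeFactors_one, card_empty, pow_zero, mul_one] at h
    exact h

end Pool.Agent.Results.MP_e23604_nt.FullTwoTorsionSha
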